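import Mathlib
import Pool.Agent.E8helper29.Zn.Stm3

/-!
# U4: Hoeffding bound and union bound in a finite product
-/

set_option autoImplicit false

namespace Pool.Agent.E8helper39.ZU

open Finset
open Pool.Agent.E8helper29.Zn (StmConc)

/-- Hoeffding's lemma in finite form -/
lemma hoef {T : ℕ} (lam y : Fin T → ℝ) (b θ : ℝ) (hlam : ∀ t, 0 ≤ lam t) (hsum : ∑ t, lam t = 1)
    (hmean : ∑ t, lam t * y t = 0) (hb : ∀ t, |y t| ≤ b) :
    ∑ t, lam t * Real.exp (θ * y t) ≤ Real.exp (θ ^ 2 * b ^ 2 / 2) := by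
  have hT : (univ : Finset (Fin T)).Nonempty := by
    by_contra h
    rw [not_nonempty_iff_eq_empty] at h
    rw [h, sum_empty] at hsum
    exact zero_ne_one hsum
  obtain ⟨t0, -⟩ := hT
  have hb0 : 0 ≤ b := (abs_nonneg _).trans (hb t0)
  rcases hb0.eq_or_lt with h | h
  · have hy : ∀ t, y t = 0 := fun t => abs_nonpos_iff.1 ((hb t).trans h.symm.le)
    simp only [hy, mul_zero, Real.exp_zero, mul_one, hsum, ← h]
    simp
  · have h1 : ∀ t, Real.exp (θ * y t) ≤ Real.cosh (θ * b) + y t / b * Real.sinh (θ * b) := by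
      intro t
      obtain ⟨hl, hu⟩ := abs_le.1 (hb t)
      have hl' : -1 ≤ y t / b := by rw [le_div_iff₀ h]; linarith
      have hu' : y t / b ≤ 1 := by rw [div_le_iff₀ h]; linarith
      have h2 := convexOn_exp.2 (Set.mem_univ (θ * b)) (Set.mem_univ (-(θ * b)))
        (show (0 : ℝ) ≤ (1 + y t / b) / 2 by linarith) (show (0 : ℝ) ≤ (1 - y t / b) / 2 by linarith)
        (by ring)
      simp only [smul_eq_mul] at h2
      have h3 : (1 + y t / b) / 2 * (θ * b) + (1 - y t / b) / 2 * -(θ * b) = θ * y t := by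
        field_simp
        ring
      rw [h3] at h2
      rw [Real.cosh_eq, Real.sinh_eq]
      linarith
    calc ∑ t, lam t * Real.exp (θ * y t)
        ≤ ∑ t, lam t * (Real.cosh (θ * b) + y t / b * Real.sinh (θ * b)) :=
          sum_le_sum fun t _ => mul_le_mul_of_nonneg_left (h1 t) (hlam t)
      _ = Real.cosh (θ * b) * ∑ t, lam t + Real.sinh (θ * b) / b * ∑ t, lam t * y t := by
          rw [mul_sum, mul_sum, ← sum_add_distrib]
          refine sum_congr rfl fun t _ => ?_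
          ring
      _ = Real.cosh (θ * b) := by rw [hsum, hmean]; ring
      _ ≤ Real.exp ((θ * b) ^ 2 / 2) := Real.cosh_le_exp_half_sq _
      _ = _ := by rw [mul_pow]

theorem u4 : StmConc := by
  intro ι _ _ A T lam Y b V s hlam hsum hmean hb hV hVpos hs hexp
  set θ : ℝ := s / V with hθ
  have hθ0 : 0 < θ := div_pos hs hVpos
  let W : ((c : ι) → Fin (T c)) → ℝ := fun τ => ∏ c, lam c (τ c)
  have hW0 : ∀ τ, 0 ≤ W τ := fun τ => prod_nonneg fun c _ => hlam c _
  have hfac : ∀ F : (c : ι) → Fin (T c) → ℝ,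
      ∑ τ : (c : ι) → Fin (T c), ∏ c, F c (τ c) = ∏ c, ∑ t, F c t := by
    intro F
    rw [prod_univ_sum, Fintype.piFinset_univ]
  have hW1 : ∑ τ, W τ = 1 := by
    show ∑ τ : (c : ι) → Fin (T c), ∏ c, lam c (τ c) = 1
    rw [hfac]
    exact prod_eq_one fun c _ => hsum c
  have hE : ∀ (x : Fin A) (η : ℝ), η ^ 2 = θ ^ 2 →
      ∑ τ, W τ * Real.exp (η * ∑ c, Y x c (τ c)) ≤ Real.exp (θ ^ 2 * V / 2) := by
    intro x η hη
    have h1 : ∀ τ : (c : ι) → Fin (T c), W τ * Real.exp (η * ∑ c, Y x c (τ c)) =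
        ∏ c, (lam c (τ c) * Real.exp (η * Y x c (τ c))) := by
      intro τ
      rw [prod_mul_distrib, ← Real.exp_sum, mul_sum]
    rw [sum_congr rfl fun τ _ => h1 τ, hfac fun c t => lam c t * Real.exp (η * Y x c t)]
    calc ∏ c, ∑ t, lam c t * Real.exp (η * Y x c t) ≤ ∏ c, Real.exp (η ^ 2 * b x c ^ 2 / 2) := by
          refine prod_le_prod (fun c _ => sum_nonneg fun t _ =>
            mul_nonneg (hlam c t) (Real.exp_pos _).le) fun c _ => ?_
          exact hoef (lam c) (Y x c) (b x c) η (hlam c) (hsum c) (hmean x c) (hb x c)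
      _ = Real.exp (∑ c, η ^ 2 * b x c ^ 2 / 2) := (Real.exp_sum _ _).symm
      _ ≤ _ := by
          apply Real.exp_le_exp.2
          rw [← sum_div, ← mul_sum, hη]
          have := mul_le_mul_of_nonneg_left (hV x) (sq_nonneg θ)
          linarith
  let Φ : ((c : ι) → Fin (T c)) → ℝ := fun τ => ∑ x : Fin A,
    (Real.exp (θ * ∑ c, Y x c (τ c)) + Real.exp (-θ * ∑ c, Y x c (τ c)))
  set B : ℝ := 2 * A * Real.exp (θ ^ 2 * V / 2) with hB
  have hΦ : ∑ τ, W τ * Φ τ ≤ B := by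
    have h1 : ∑ τ, W τ * Φ τ = ∑ x : Fin A, (∑ τ, W τ * Real.exp (θ * ∑ c, Y x c (τ c)) +
        ∑ τ, W τ * Real.exp (-θ * ∑ c, Y x c (τ c))) := by
      simp only [Φ, mul_sum, mul_add, sum_add_distrib]
      rw [sum_comm]
      congr 1
      rw [sum_comm]
    rw [h1]
    calc _ ≤ ∑ _x : Fin A, (Real.exp (θ ^ 2 * V / 2) + Real.exp (θ ^ 2 * V / 2)) :=
          sum_le_sum fun x _ => add_le_add (hE x θ rfl) (hE x (-θ) (by ring))
      _ = B := by
          rw [sum_const, card_univ, Fintype.card_fin, nsmul_eq_mul, hB]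
          ring
  obtain ⟨τ, hτ⟩ : ∃ τ, Φ τ ≤ B := by
    by_contra hcon
    push Not at hcon
    have h1 : ∀ τ ∈ (univ : Finset ((c : ι) → Fin (T c))), 0 ≤ W τ * (Φ τ - B) :=
      fun τ _ => mul_nonneg (hW0 τ) (sub_nonneg.2 (hcon τ).le)
    have h2 : ∑ τ, W τ * (Φ τ - B) ≤ 0 := by
      simp only [mul_sub, sum_sub_distrib]
      rw [← sum_mul, hW1]
      linarith
    have h3 : ∑ τ, W τ * (Φ τ - B) = 0 := le_antisymm h2 (sum_nonneg h1)
    rw [sum_eq_zero_iff_of_nonneg h1] at h3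
    have h4 : ∀ τ, W τ = 0 := by
      intro τ
      rcases mul_eq_zero.1 (h3 τ (mem_univ τ)) with h | h
      · exact h
      · exact absurd (sub_eq_zero.1 h) (hcon τ).ne'
    rw [sum_eq_zero fun τ _ => h4 τ] at hW1
    exact zero_ne_one hW1
  refine ⟨τ, fun x => ?_⟩
  set S : ℝ := ∑ c, Y x c (τ c) with hS
  have h1 : Real.exp (θ * S) + Real.exp (-θ * S) ≤ Φ τ :=
    single_le_sum (f := fun x : Fin A =>
      Real.exp (θ * ∑ c, Y x c (τ c)) + Real.exp (-θ * ∑ c, Y x c (τ c)))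
      (fun x _ => (add_pos (Real.exp_pos _) (Real.exp_pos _)).le) (mem_univ x)
  have h2 : Real.exp (θ * |S|) ≤ Real.exp (θ * S) + Real.exp (-θ * S) := by
    rcases abs_choice S with h | h
    · rw [h]; linarith [Real.exp_pos (-θ * S)]
    · rw [h]
      have : θ * -S = -θ * S := by ring
      rw [this]
      linarith [Real.exp_pos (θ * S)]
  have h3 : θ ^ 2 * V / 2 = s ^ 2 / (2 * V) := by
    rw [hθ]
    field_simp
  have h4 : θ * s = s ^ 2 / (2 * V) + s ^ 2 / (2 * V) := by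
    rw [hθ]
    field_simp
    ring
  have h5 : B < Real.exp (θ * s) := by
    rw [hB, h3, h4, Real.exp_add]
    have h6 := mul_lt_mul_of_pos_right hexp
      (mul_pos (Real.exp_pos (s ^ 2 / (2 * V))) (Real.exp_pos (s ^ 2 / (2 * V))))
    have h7 : 2 * A * Real.exp (-(s ^ 2 / (2 * V))) * (Real.exp (s ^ 2 / (2 * V)) *
        Real.exp (s ^ 2 / (2 * V))) = 2 * A * Real.exp (s ^ 2 / (2 * V)) := by
      rw [Real.exp_neg]
      field_simp
    rw [h7, one_mul] at h6
    exact h6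
  have h6 : Real.exp (θ * |S|) < Real.exp (θ * s) := (h2.trans (h1.trans hτ)).trans_lt h5
  have h7 := Real.exp_lt_exp.1 h6
  exact (lt_of_mul_lt_mul_left h7 hθ0.le).le

end Pool.Agent.E8helper39.ZU
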